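import Pool.Agent.Lib.PNTX.ZLow
import Pool.Agent.Lib.PNT.Theta

/-!
# PNTX.Bdry (size 200): the boundary function

`G0(s) = (-(F'(1+s)/F(1+s)) - 1)/(1+s)`, `F = riemannZeta₁`.
(1) `G0_continuousOn` on `Re s ≥ 0`: `F(1+s) ≠ 0` there (`riemannZeta_ne_zero_of_one_le_re`,
    `riemannZeta_eq_inv_sub_mul`, `riemannZeta₁_one`), `F` entire
    (`differentiable_riemannZeta₁`, `Differentiable.contDiff` for the continuity of the derivative).
(2) `G0_transform`: `∫_0^∞ (H(u) - 1) e^{-su} du = G0(s)` for `Re s > 0`, `H = PNT.Hpsi`: by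
    `PNT.Hpsi_transform` it is `PNT.Gfun s`, and `PNT.Gfun s = G0 s`: `PNT.LSeries_eq_Aux` and
    `ArithmeticFunction.LSeries_vonMangoldt_eq_deriv_riemannZeta_div` give
    `Aux(1+s) = -ζ'/ζ(1+s) - 1/s`, and near `1+s ≠ 1` `ζ(z) = F(z)/(z-1)`, so
    `-ζ'/ζ(z) = 1/(z-1) - F'/F(z)`.
(3) `G0_bound`: `|G0(it)| ≤ 10^250` for `|t| ≤ 10^16`: `F_bounds` (`L = 10^16`: `|F'| ≤ 10^35`),
    `F_lower`, `|1 + it| ≥ 1`.
(4) `G0_deriv`: `t ↦ G0(it)` has the derivative `G0d t` with `|G0d t| ≤ 10^450` for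
    `|t| ≤ 10^16`; `G0d` is continuous. Here
    `G0d t = I * (-(F'' F - F'^2)/F² * 1/(1+s) - (-(F'/F) - 1)/(1+s)²)` at `s = it`:
    `|..| ≤ (10^35 + ...)`: `|F''/F| ≤ 10^(35+173)`, `|F'/F|² ≤ 10^(2*208)`.
-/

namespace PNTX

open Complex MeasureTheory Set

/-- the boundary function -/
noncomputable def G0 (s : ℂ) : ℂ :=
  (-(deriv riemannZeta₁ (1 + s) / riemannZeta₁ (1 + s)) - 1) / (1 + s)

private lemma bdry_F_ne {z : ℂ} (hz : 1 ≤ z.re) : riemannZeta₁ z ≠ 0 := by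
  by_cases h1 : z = 1
  · rw [h1, riemannZeta₁_one]
    exact one_ne_zero
  · intro h
    have h2 := riemannZeta_ne_zero_of_one_le_re hz
    rw [riemannZeta_eq_inv_sub_mul h1, h, mul_zero] at h2
    exact h2 rfl

private lemma bdry_one_add_ne {s : ℂ} (hs : 0 ≤ s.re) : (1 : ℂ) + s ≠ 0 := by
  intro h
  have := congrArg Complex.re h
  simp at this
  linarith

private lemma bdry_dF : Differentiable ℂ (deriv riemannZeta₁) :=
  differentiable_riemannZeta₁.deriv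

theorem G0_continuousOn : ContinuousOn G0 {s | 0 ≤ s.re} := by
  unfold G0
  have hc : Continuous (fun s : ℂ => 1 + s) := by fun_prop
  have h1 : ContinuousOn (fun s : ℂ => deriv riemannZeta₁ (1 + s) / riemannZeta₁ (1 + s))
      {s | 0 ≤ s.re} := by
    refine ContinuousOn.div ?_ ?_ ?_
    · exact (bdry_dF.continuous.comp hc).continuousOn
    · exact (differentiable_riemannZeta₁.continuous.comp hc).continuousOn
    · intro s hs
      have hs' : 0 ≤ s.re := hs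
      apply bdry_F_ne
      simp
      exact hs'
  refine ContinuousOn.div (h1.neg.sub continuousOn_const) hc.continuousOn ?_
  intro s hs
  exact bdry_one_add_ne hs

theorem G0_transform (s : ℂ) (hs : 0 < s.re) :
    ∫ u in Ioi (0 : ℝ), ((PNT.Hpsi u - 1 : ℝ) : ℂ) * Complex.exp (-s * u) = G0 s := by
  rw [PNT.Hpsi_transform s hs]
  unfold PNT.Gfun G0
  have hre : 1 < (1 + s).re := by simp; exact hs
  have hne : (1 + s : ℂ) ≠ 1 := by
    intro h
    rw [h] at hre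
    simp at hre
  have hs0 : s ≠ 0 := by
    intro h
    rw [h] at hs
    simp at hs
  have h1 := PNT.LSeries_eq_Aux hre
  rw [ArithmeticFunction.LSeries_vonMangoldt_eq_deriv_riemannZeta_div hre,
    deriv_riemannZeta_eq_neg_inv_sub_sq_mul_add hne, riemannZeta_eq_inv_sub_mul hne] at h1
  have hF := bdry_F_ne hre.le
  have h2 : (1 + s - 1 : ℂ) = s := by ring
  rw [h2] at h1
  have h3 : ArithmeticFunction.vonMangoldt.LFunctionResidueClassAux (1 : ZMod 1) (1 + s) =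
      -(deriv riemannZeta₁ (1 + s) / riemannZeta₁ (1 + s)) := by
    have h4 : ArithmeticFunction.vonMangoldt.LFunctionResidueClassAux (1 : ZMod 1) (1 + s) =
        -(-(s⁻¹) ^ 2 * riemannZeta₁ (1 + s) + s⁻¹ * deriv riemannZeta₁ (1 + s)) /
          (s⁻¹ * riemannZeta₁ (1 + s)) - 1 / s := by
      rw [h1]
      ring
    rw [h4]
    field_simp
    ring
  rw [h3]

private lemma bdry_norm_one_add (t : ℝ) : 1 ≤ ‖(1 : ℂ) + I * t‖ := by
  have h := abs_re_le_norm ((1 : ℂ) + I * t)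
  have h2 : ((1 : ℂ) + I * t).re = 1 := by simp
  rw [h2, abs_one] at h
  exact h

private lemma bdry_bounds {t : ℝ} (ht : |t| ≤ 10 ^ 16) :
    ‖riemannZeta₁ (1 + I * t)‖ ≤ 10 ^ 35 ∧ ‖deriv riemannZeta₁ (1 + I * t)‖ ≤ 10 ^ 35 ∧
      ‖deriv (deriv riemannZeta₁) (1 + I * t)‖ ≤ 10 ^ 35 := by
  have h := F_bounds (L := 10 ^ 16) (by norm_num) (s := 1 + I * t) (by simp) (by simp)
    (by simpa using ht)
  have e : (1000 : ℝ) * (10 ^ 16) ^ 2 = 10 ^ 35 := by norm_num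
  rw [e] at h
  exact h

private lemma bdry_ratio {t : ℝ} (ht : |t| ≤ 10 ^ 16) :
    ‖deriv riemannZeta₁ (1 + I * t) / riemannZeta₁ (1 + I * t)‖ ≤ 10 ^ 208 ∧
      ‖deriv (deriv riemannZeta₁) (1 + I * t) / riemannZeta₁ (1 + I * t)‖ ≤ 10 ^ 208 := by
  obtain ⟨_, h1, h2⟩ := bdry_bounds ht
  have h3 := F_lower ht
  have hpos : 0 < ‖riemannZeta₁ (1 + I * t)‖ := lt_of_lt_of_le (by positivity) h3
  have key : ∀ x : ℝ, x ≤ 10 ^ 35 → x / ‖riemannZeta₁ (1 + I * t)‖ ≤ 10 ^ 208 := by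
    intro x hx
    rw [div_le_iff₀ hpos]
    calc x ≤ 10 ^ 35 := hx
      _ = 10 ^ 208 * (1 / 10 ^ 173) := by norm_num
      _ ≤ 10 ^ 208 * ‖riemannZeta₁ (1 + I * t)‖ := by gcongr
  rw [norm_div, norm_div]
  exact ⟨key _ h1, key _ h2⟩

theorem G0_bound {t : ℝ} (ht : |t| ≤ 10 ^ 16) : ‖G0 (I * t)‖ ≤ 10 ^ 250 := by
  unfold G0
  have h1 := (bdry_ratio ht).1
  have h2 := bdry_norm_one_add t
  rw [norm_div, div_le_iff₀ (by linarith)]
  have h3 : ‖-(deriv riemannZeta₁ (1 + I * t) / riemannZeta₁ (1 + I * t)) - 1‖ ≤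
      10 ^ 208 + 1 := by
    refine (norm_sub_le _ _).trans ?_
    rw [norm_neg, norm_one]
    linarith
  calc ‖-(deriv riemannZeta₁ (1 + I * t) / riemannZeta₁ (1 + I * t)) - 1‖ ≤ 10 ^ 208 + 1 := h3
    _ ≤ 10 ^ 250 * 1 := by norm_num
    _ ≤ 10 ^ 250 * ‖(1 : ℂ) + I * t‖ := by gcongr

/-- the derivative of the boundary function -/
private noncomputable def bdry_G0d (t : ℝ) : ℂ :=
  I * ((-(deriv (deriv riemannZeta₁) (1 + I * t) / riemannZeta₁ (1 + I * t) -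
      (deriv riemannZeta₁ (1 + I * t) / riemannZeta₁ (1 + I * t)) ^ 2)) / (1 + I * t) -
    (-(deriv riemannZeta₁ (1 + I * t) / riemannZeta₁ (1 + I * t)) - 1) / (1 + I * t) ^ 2)

private lemma bdry_re (t : ℝ) : (1 : ℝ) ≤ ((1 : ℂ) + I * t).re := by simp

theorem G0_deriv : ∃ G0d : ℝ → ℂ, Continuous G0d ∧
    (∀ t : ℝ, HasDerivAt (fun t : ℝ => G0 (I * t)) (G0d t) t) ∧
    ∀ t : ℝ, |t| ≤ 10 ^ 16 → ‖G0d t‖ ≤ 10 ^ 450 := by
  have hc : Continuous (fun t : ℝ => (1 : ℂ) + I * t) := by fun_prop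
  have hF : ∀ t : ℝ, riemannZeta₁ (1 + I * t) ≠ 0 := fun t => bdry_F_ne (bdry_re t)
  have hz : ∀ t : ℝ, (1 : ℂ) + I * t ≠ 0 := fun t => bdry_one_add_ne (by simp)
  refine ⟨bdry_G0d, ?_, ?_, ?_⟩
  · unfold bdry_G0d
    have c0 : Continuous (fun t : ℝ => riemannZeta₁ (1 + I * t)) :=
      differentiable_riemannZeta₁.continuous.comp hc
    have c1 : Continuous (fun t : ℝ => deriv riemannZeta₁ (1 + I * t)) :=
      bdry_dF.continuous.comp hc
    have c2 : Continuous (fun t : ℝ => deriv (deriv riemannZeta₁) (1 + I * t)) :=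
      bdry_dF.deriv.continuous.comp hc
    have d1 := c1.div c0 hF
    have d2 := c2.div c0 hF
    refine continuous_const.mul (((d2.sub (d1.pow 2)).neg.div hc hz).sub
      ((d1.neg.sub continuous_const).div (hc.pow 2) ?_))
    intro t
    exact pow_ne_zero 2 (hz t)
  · intro t
    have e1 : HasDerivAt (fun t : ℝ => (1 : ℂ) + I * t) I t := by
      have h := ((hasDerivAt_id (t : ℂ)).const_mul I).comp_ofReal
      have h' := h.const_add (1 : ℂ)
      simpa using h'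
    have e2 : HasDerivAt (fun t : ℝ => riemannZeta₁ (1 + I * t))
        (deriv riemannZeta₁ (1 + I * t) * I) t :=
      HasDerivAt.comp (h₂ := riemannZeta₁) (h := fun t : ℝ => (1 : ℂ) + I * t) t
        (differentiable_riemannZeta₁ (1 + I * t)).hasDerivAt e1
    have e3 : HasDerivAt (fun t : ℝ => deriv riemannZeta₁ (1 + I * t))
        (deriv (deriv riemannZeta₁) (1 + I * t) * I) t :=
      HasDerivAt.comp (h₂ := deriv riemannZeta₁) (h := fun t : ℝ => (1 : ℂ) + I * t) t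
        (bdry_dF (1 + I * t)).hasDerivAt e1
    have e4 := ((e3.div e2 (hF t)).neg.sub_const (1 : ℂ)).div e1 (hz t)
    refine e4.congr_deriv ?_
    unfold bdry_G0d
    have hF' := hF t
    have hz' := hz t
    simp only [Pi.neg_apply, Pi.div_apply]
    field_simp
  · intro t ht
    obtain ⟨r1, r2⟩ := bdry_ratio ht
    have hn := bdry_norm_one_add t
    unfold bdry_G0d
    rw [norm_mul, norm_I, one_mul]
    refine (norm_sub_le _ _).trans ?_
    rw [norm_div, norm_div, norm_pow]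
    have a1 : ‖-(deriv (deriv riemannZeta₁) (1 + I * t) / riemannZeta₁ (1 + I * t) -
        (deriv riemannZeta₁ (1 + I * t) / riemannZeta₁ (1 + I * t)) ^ 2)‖ ≤
        10 ^ 208 + (10 ^ 208) ^ 2 := by
      rw [norm_neg]
      refine (norm_sub_le _ _).trans ?_
      rw [norm_pow]
      gcongr
    have a2 : ‖-(deriv riemannZeta₁ (1 + I * t) / riemannZeta₁ (1 + I * t)) - 1‖ ≤
        10 ^ 208 + 1 := by
      refine (norm_sub_le _ _).trans ?_
      rw [norm_neg, norm_one]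
      linarith
    have b1 : ∀ x : ℝ, 0 ≤ x → x / ‖(1 : ℂ) + I * t‖ ≤ x := by
      intro x hx
      exact div_le_self hx hn
    have b2 : ∀ x : ℝ, 0 ≤ x → x / ‖(1 : ℂ) + I * t‖ ^ 2 ≤ x := by
      intro x hx
      exact div_le_self hx (one_le_pow₀ hn)
    have c1 := (b1 _ (norm_nonneg _)).trans a1
    have c2 := (b2 _ (norm_nonneg _)).trans a2
    refine (add_le_add c1 c2).trans ?_
    have p1 : (10 : ℝ) ^ 450 = 10 ^ 34 * (10 ^ 208) ^ 2 := by
      rw [← pow_mul, ← pow_add]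
    have p2 : (1 : ℝ) ≤ 10 ^ 208 := by norm_num
    have p3 : (4 : ℝ) ≤ 10 ^ 34 := by norm_num
    rw [p1]
    generalize (10 : ℝ) ^ 208 = a at p2 ⊢
    have p4 : a ≤ a ^ 2 := by nlinarith
    have p5 : 4 * a ^ 2 ≤ 10 ^ 34 * a ^ 2 := by gcongr
    linarith

end PNTX
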