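import Pool.Agent.Lib.PNT.Kernel

/-!
# PNTX.Ker (size 100): the Fejer kernel, explicit

`K = PNT.K`, `kap = PNT.kap = ∫ K`.
(1) `kap ≥ 1`: `K v ≥ 1/2` on `[-1, 1]`: `K v = sinc (v/2)²`, `sinc x ≥ cos x ≥ 1 - x²/2 ≥ 7/8`
    for `|x| ≤ 1/2` (`Real.cos_le_sinc`-like, or `Real.sin_gt_sub_cube : x - x³/4 < sin x` for
    `0 < x ≤ 1`, `K_eq`, evenness), and `setIntegral_le_integral`, `PNT.K_integrable`.
(2) `kap - 16/R ≤ ∫_{-R}^R K`, `R > 0`: `PNT.K_le : K v ≤ 8/(1+v²) ≤ 8/v²`, the tails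
    `∫_R^∞ 8/v² = 8/R` (`integral_Ioi_rpow_of_lt` or `integrableOn_Ioi_rpow_of_lt`), twice by
    evenness (or on `Iic (-R)` directly).
(3) `kap - 8/b ≤ ∫_{Iic b} K ≤ kap`, `b > 0`.
-/

namespace PNTX

open MeasureTheory Set

private lemma K_even (v : ℝ) : PNT.K (-v) = PNT.K v := by
  unfold PNT.K
  rw [neg_div, Real.sinc_neg]

private lemma K_half_pos {v : ℝ} (h0 : 0 < v) (h1 : v ≤ 1) : 1 / 2 ≤ PNT.K v := by
  unfold PNT.K
  have hx : 0 < v / 2 := by linarith
  have hx1 : v / 2 ≤ 1 := by linarith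
  rw [Real.sinc_of_ne_zero hx.ne']
  have hs := Real.sin_gt_sub_cube hx
  have h2 : (15 : ℝ) / 16 ≤ Real.sin (v / 2) / (v / 2) := by
    rw [le_div_iff₀ hx]
    have h3 : (v / 2) ^ 2 ≤ 1 / 4 := by nlinarith
    have h4 : (v / 2) ^ 3 ≤ 1 / 4 * (v / 2) := by
      have : (v / 2) ^ 3 = (v / 2) ^ 2 * (v / 2) := by ring
      rw [this]
      exact mul_le_mul_of_nonneg_right h3 hx.le
    linarith
  nlinarith

private lemma K_half {v : ℝ} (hv : v ∈ Icc (-1 : ℝ) 1) : 1 / 2 ≤ PNT.K v := by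
  rcases lt_trichotomy v 0 with h | h | h
  · rw [← K_even]
    exact K_half_pos (by linarith) (by linarith [hv.1])
  · subst h
    have : PNT.K 0 = 1 := by simp [PNT.K]
    rw [this]
    norm_num
  · exact K_half_pos h hv.2

theorem kap_ge : 1 ≤ PNT.kap := by
  have h1 : ∫ v in Icc (-1 : ℝ) 1, PNT.K v ≤ PNT.kap := by
    unfold PNT.kap
    exact setIntegral_le_integral PNT.K_integrable (Filter.Eventually.of_forall PNT.K_nonneg)
  have h2 : ∫ v in Icc (-1 : ℝ) 1, (1 / 2 : ℝ) ≤ ∫ v in Icc (-1 : ℝ) 1, PNT.K v := by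
    apply setIntegral_mono_on
    · exact integrableOn_const (by simp)
    · exact PNT.K_integrable.integrableOn
    · exact measurableSet_Icc
    · intro v hv
      exact K_half hv
  have h3 : ∫ v in Icc (-1 : ℝ) 1, (1 / 2 : ℝ) = 1 := by
    rw [setIntegral_const]
    simp [Measure.real]
    norm_num
  linarith

private lemma tail {b : ℝ} (hb : 0 < b) : ∫ v in Ioi b, PNT.K v ≤ 8 / b := by
  have hint : IntegrableOn (fun v : ℝ => 8 * v ^ (-2 : ℝ)) (Ioi b) :=
    (integrableOn_Ioi_rpow_of_lt (by norm_num) hb).const_mul 8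
  have h1 : ∫ v in Ioi b, PNT.K v ≤ ∫ v in Ioi b, 8 * v ^ (-2 : ℝ) := by
    apply setIntegral_mono_on PNT.K_integrable.integrableOn hint measurableSet_Ioi
    intro v hv
    have hv0 : 0 < v := hb.trans hv
    refine (PNT.K_le v).trans ?_
    rw [Real.rpow_neg hv0.le]
    have h2 : v ^ (2 : ℝ) = v ^ 2 := by exact_mod_cast Real.rpow_natCast v 2
    rw [h2]
    have h3 : (1 + v ^ 2)⁻¹ ≤ (v ^ 2)⁻¹ := by
      apply inv_anti₀ (by positivity)
      linarith
    linarith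
  have h4 : ∫ v in Ioi b, 8 * v ^ (-2 : ℝ) = 8 / b := by
    rw [integral_const_mul, integral_Ioi_rpow_of_lt (by norm_num) hb]
    have h5 : (-2 : ℝ) + 1 = -1 := by norm_num
    rw [h5, Real.rpow_neg hb.le, Real.rpow_one]
    field_simp
  linarith

private lemma split (b : ℝ) :
    (∫ v in Iic b, PNT.K v) + (∫ v in Ioi b, PNT.K v) = PNT.kap := by
  have h := integral_add_compl (measurableSet_Iic (a := b)) PNT.K_integrable
  rw [compl_Iic] at h
  exact h

theorem K_mass {R : ℝ} (hR : 0 < R) : PNT.kap - 16 / R ≤ ∫ v in Icc (-R) R, PNT.K v := by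
  have h1 := split R
  have h2 := tail hR
  have h3 : Iic R = Iio (-R) ∪ Icc (-R) R := by
    rw [Iio_union_Icc_eq_Iic (by linarith)]
  have h4 : (∫ v in Iic R, PNT.K v) =
      (∫ v in Iio (-R), PNT.K v) + ∫ v in Icc (-R) R, PNT.K v := by
    rw [h3]
    apply setIntegral_union
    · rw [Set.disjoint_left]
      intro x hx hx2
      exact absurd hx2.1 (not_le.2 hx)
    · exact measurableSet_Icc
    · exact PNT.K_integrable.integrableOn
    · exact PNT.K_integrable.integrableOn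
  have h5 : ∫ v in Iio (-R), PNT.K v = ∫ v in Ioi R, PNT.K v := by
    rw [← integral_Iic_eq_integral_Iio, ← integral_comp_neg_Ioi]
    apply setIntegral_congr_fun measurableSet_Ioi
    intro v _
    exact K_even v
  have h6 : (16 : ℝ) / R = 8 / R + 8 / R := by ring
  linarith

theorem K_tail {b : ℝ} (hb : 0 < b) :
    PNT.kap - 8 / b ≤ ∫ v in Iic b, PNT.K v ∧ ∫ v in Iic b, PNT.K v ≤ PNT.kap := by
  have h1 := split b
  have h2 := tail hb
  have h3 : 0 ≤ ∫ v in Ioi b, PNT.K v :=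
    setIntegral_nonneg measurableSet_Ioi (fun v _ => PNT.K_nonneg v)
  constructor <;> linarith

end PNTX
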