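import Pool.Agent.Lib.PNTX.Ker
import Pool.Agent.Lib.PNT.Theta

/-!
# PNTX.Taub (size 160): the two pointwise inequalities of the Tauberian argument

`H = PNT.Hpsi`, `l, R > 0`. For all `z`:
(1) `H(z) ∫_{-R}^R K ≤ exp (2R/l) ∫ H(z + R/l - v/l) K(v) dv`,
(2) `∫ H(z - R/l - v/l) K(v) dv ≤ H(z) exp (2R/l) kap + 6 (kap - ∫_{-R}^R K)`.

PROOF. These are `hup` and `hlo` inside the proof of `PNT.tauber`
(`Pool/Agent/Lib/PNT/Tauber.lean`): copy them with `H = PNT.Hpsi`, `hH0 = PNT.Hpsi_nonneg`,
`hHC = PNT.Hpsi_le` (`log 4 + 4 ≤ 6`), `hmono = PNT.Hpsi_mono`, `hint` (integrability of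
`H(y - v/l) K(v)`) is also there.
-/

/-!
# PNTX.Taub (size 160): the two pointwise inequalities of the Tauberian argument

`H = PNT.Hpsi`, `l, R > 0`. For all `z`:
(1) `H(z) ∫_{-R}^R K ≤ exp (2R/l) ∫ H(z + R/l - v/l) K(v) dv`,
(2) `∫ H(z - R/l - v/l) K(v) dv ≤ H(z) exp (2R/l) kap + 6 (kap - ∫_{-R}^R K)`.

PROOF. These are `hup` and `hlo` inside the proof of `PNT.tauber`
(`Pool/Agent/Lib/PNT/Tauber.lean`): copy them with `H = PNT.Hpsi`, `hH0 = PNT.Hpsi_nonneg`,
`hHC = PNT.Hpsi_le` (`log 4 + 4 ≤ 6`), `hmono = PNT.Hpsi_mono`, `hint` (integrability of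
`H(y - v/l) K(v)`) is also there.
-/

namespace PNTX

open MeasureTheory Set

private lemma taub_le_six (u : ℝ) : PNT.Hpsi u ≤ 6 := by
  refine (PNT.Hpsi_le u).trans ?_
  have h2 : Real.log 4 = 2 * Real.log 2 := by
    rw [show (4 : ℝ) = 2 ^ 2 by norm_num, Real.log_pow]
    norm_num
  have h3 := Real.log_two_lt_d9
  linarith

private lemma taub_int (l y : ℝ) : Integrable (fun v => PNT.Hpsi (y - v / l) * PNT.K v) := by
  refine Integrable.mono' (PNT.K_integrable.const_mul 6) ?_ ?_
  · apply Measurable.aestronglyMeasurable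
    have h1 := PNT.K_continuous.measurable
    have h2 := PNT.Hpsi_measurable
    exact (h2.comp (measurable_const.sub (measurable_id.div_const l))).mul h1
  · filter_upwards with u
    rw [Real.norm_of_nonneg (mul_nonneg (PNT.Hpsi_nonneg _) (PNT.K_nonneg _))]
    exact mul_le_mul_of_nonneg_right (taub_le_six _) (PNT.K_nonneg _)

theorem taub_up {l R z : ℝ} (hl : 0 < l) (hR : 0 ≤ R) :
    PNT.Hpsi z * ∫ v in Icc (-R) R, PNT.K v ≤
      Real.exp (2 * R / l) * ∫ v, PNT.Hpsi (z + R / l - v / l) * PNT.K v := by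
  have h1 : ∫ v in Icc (-R) R, PNT.Hpsi z * PNT.K v ≤
      ∫ v in Icc (-R) R, Real.exp (2 * R / l) * (PNT.Hpsi (z + R / l - v / l) * PNT.K v) := by
    apply setIntegral_mono_on (PNT.K_integrable.const_mul _).integrableOn
      ((taub_int l (z + R / l)).const_mul _).integrableOn measurableSet_Icc
    intro v hv
    rw [← mul_assoc]
    apply mul_le_mul_of_nonneg_right _ (PNT.K_nonneg v)
    have h2 : z ≤ z + R / l - v / l := by
      have : v / l ≤ R / l := by gcongr; exact hv.2
      linarith
    have h3 := PNT.Hpsi_mono _ _ h2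
    have h4 : Real.exp (z + R / l - v / l) ≤ Real.exp (2 * R / l) * Real.exp z := by
      rw [← Real.exp_add]
      apply Real.exp_le_exp.mpr
      have : -(v / l) ≤ R / l := by
        rw [← neg_div]
        gcongr
        linarith [hv.1]
      have : 2 * R / l = R / l + R / l := by ring
      linarith
    have h5 : PNT.Hpsi z * Real.exp z ≤
        Real.exp (2 * R / l) * PNT.Hpsi (z + R / l - v / l) * Real.exp z := by
      calc PNT.Hpsi z * Real.exp z
          ≤ PNT.Hpsi (z + R / l - v / l) * Real.exp (z + R / l - v / l) := h3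
        _ ≤ PNT.Hpsi (z + R / l - v / l) * (Real.exp (2 * R / l) * Real.exp z) :=
            mul_le_mul_of_nonneg_left h4 (PNT.Hpsi_nonneg _)
        _ = _ := by ring
    exact le_of_mul_le_mul_right h5 (Real.exp_pos z)
  rw [integral_const_mul, integral_const_mul] at h1
  refine h1.trans ?_
  apply mul_le_mul_of_nonneg_left _ (Real.exp_pos _).le
  apply setIntegral_le_integral (taub_int l _)
  filter_upwards with v
  exact mul_nonneg (PNT.Hpsi_nonneg _) (PNT.K_nonneg _)

theorem taub_lo {l R z : ℝ} (hl : 0 < l) (hR : 0 ≤ R) :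
    ∫ v, PNT.Hpsi (z - R / l - v / l) * PNT.K v ≤
      PNT.Hpsi z * Real.exp (2 * R / l) * PNT.kap +
        6 * (PNT.kap - ∫ v in Icc (-R) R, PNT.K v) := by
  rw [← integral_add_compl (measurableSet_Icc (a := -R) (b := R)) (taub_int l (z - R / l))]
  have h1 : ∫ v in Icc (-R) R, PNT.Hpsi (z - R / l - v / l) * PNT.K v ≤
      PNT.Hpsi z * Real.exp (2 * R / l) * PNT.kap := by
    calc _ ≤ ∫ v in Icc (-R) R, PNT.Hpsi z * Real.exp (2 * R / l) * PNT.K v := by
          apply setIntegral_mono_on (taub_int l _).integrableOn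
            (PNT.K_integrable.const_mul _).integrableOn measurableSet_Icc
          intro v hv
          apply mul_le_mul_of_nonneg_right _ (PNT.K_nonneg v)
          have h2 : z - R / l - v / l ≤ z := by
            have : -(v / l) ≤ R / l := by
              rw [← neg_div]
              gcongr
              linarith [hv.1]
            linarith
          have h3 := PNT.Hpsi_mono _ _ h2
          have h4 : Real.exp z ≤ Real.exp (2 * R / l) * Real.exp (z - R / l - v / l) := by
            rw [← Real.exp_add]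
            apply Real.exp_le_exp.mpr
            have : v / l ≤ R / l := by gcongr; exact hv.2
            have : 2 * R / l = R / l + R / l := by ring
            linarith
          have h5 : PNT.Hpsi (z - R / l - v / l) * Real.exp (z - R / l - v / l) ≤
              PNT.Hpsi z * Real.exp (2 * R / l) * Real.exp (z - R / l - v / l) := by
            calc _ ≤ PNT.Hpsi z * Real.exp z := h3
              _ ≤ PNT.Hpsi z * (Real.exp (2 * R / l) * Real.exp (z - R / l - v / l)) :=
                mul_le_mul_of_nonneg_left h4 (PNT.Hpsi_nonneg _)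
              _ = _ := by ring
          exact le_of_mul_le_mul_right h5 (Real.exp_pos _)
      _ = PNT.Hpsi z * Real.exp (2 * R / l) * ∫ v in Icc (-R) R, PNT.K v := by
          rw [integral_const_mul]
      _ ≤ PNT.Hpsi z * Real.exp (2 * R / l) * PNT.kap := by
          apply mul_le_mul_of_nonneg_left _
            (mul_nonneg (PNT.Hpsi_nonneg _) (Real.exp_pos _).le)
          apply setIntegral_le_integral PNT.K_integrable
          filter_upwards with v
          exact PNT.K_nonneg _
  have h2 : ∫ v in (Icc (-R) R)ᶜ, PNT.Hpsi (z - R / l - v / l) * PNT.K v ≤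
      6 * (PNT.kap - ∫ v in Icc (-R) R, PNT.K v) := by
    have h3 : PNT.kap - ∫ v in Icc (-R) R, PNT.K v = ∫ v in (Icc (-R) R)ᶜ, PNT.K v := by
      have := integral_add_compl (measurableSet_Icc (a := -R) (b := R)) PNT.K_integrable
      unfold PNT.kap
      linarith
    rw [h3, ← integral_const_mul]
    apply setIntegral_mono_on (taub_int l _).integrableOn
      (PNT.K_integrable.const_mul _).integrableOn measurableSet_Icc.compl
    intro v _
    exact mul_le_mul_of_nonneg_right (taub_le_six _) (PNT.K_nonneg v)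
  linarith

end PNTX
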