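import Pool.Agent.Lib.PNTX.Smth
import Pool.Agent.Lib.PNTX.Taub

/-!
# PNTX.Main: the prime number theorem with an explicit threshold
-/

namespace PNTX

open MeasureTheory Set

private theorem exp_small : Real.exp (2 * 10 ^ 9 / 10 ^ 16) ≤ 1 + 3 / 10 ^ 7 := by
  have h1 : Real.exp (-(2 * 10 ^ 9 / 10 ^ 16)) ≥ 1 - 2 * 10 ^ 9 / 10 ^ 16 := by
    have := Real.add_one_le_exp (-(2 * 10 ^ 9 / 10 ^ 16 : ℝ))
    linarith
  have h2 : Real.exp (2 * 10 ^ 9 / 10 ^ 16) * Real.exp (-(2 * 10 ^ 9 / 10 ^ 16)) = 1 := by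
    rw [← Real.exp_add, add_neg_cancel, Real.exp_zero]
  have h3 := Real.exp_pos (2 * 10 ^ 9 / 10 ^ 16)
  have h4 : Real.exp (2 * 10 ^ 9 / 10 ^ 16) * (1 - 2 * 10 ^ 9 / 10 ^ 16) ≤ 1 := by
    calc _ ≤ Real.exp (2 * 10 ^ 9 / 10 ^ 16) * Real.exp (-(2 * 10 ^ 9 / 10 ^ 16)) :=
          mul_le_mul_of_nonneg_left h1 h3.le
      _ = 1 := h2
  obtain ⟨E, hE⟩ : ∃ E : ℝ, E = Real.exp (2 * 10 ^ 9 / 10 ^ 16) := ⟨_, rfl⟩
  rw [← hE] at h4 h3 ⊢
  norm_num at h4 ⊢
  nlinarith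

private theorem Hpsi_close {z : ℝ} (hz : 10 ^ 490 ≤ z) : |PNT.Hpsi z - 1| ≤ 5 / 10 ^ 7 := by
  have hk := kap_ge
  have hM := K_mass (R := 10 ^ 9) (by positivity)
  have hE := exp_small
  have hE0 := Real.exp_pos (2 * 10 ^ 9 / 10 ^ 16)
  have hE1 : 1 ≤ Real.exp (2 * 10 ^ 9 / 10 ^ 16) := Real.one_le_exp (by positivity)
  have hH0 := PNT.Hpsi_nonneg z
  have hup := taub_up (l := 10 ^ 16) (R := 10 ^ 9) (z := z) (by positivity) (by positivity)
  have hlo := taub_lo (l := 10 ^ 16) (R := 10 ^ 9) (z := z) (by positivity) (by positivity)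
  have hbig : (10 : ℝ) ^ 480 + 1 ≤ z := by
    refine le_trans ?_ hz
    have h1 : (10 : ℝ) ^ 490 = 10 ^ 480 * 10 ^ 10 := by rw [← pow_add]
    rw [h1]
    have h2 : (1 : ℝ) ≤ 10 ^ 480 := one_le_pow₀ (by norm_num)
    generalize (10 : ℝ) ^ 480 = y at h2 ⊢
    have h3 : (10 : ℝ) ^ 10 = 10000000000 := by norm_num
    rw [h3]
    linarith
  have hR : (10 : ℝ) ^ 9 / 10 ^ 16 = 1 / 10 ^ 7 := by norm_num
  rw [hR] at hup hlo
  have hs1 := smooth_bound (y := z + 1 / 10 ^ 7) (by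
    have : (0 : ℝ) ≤ 1 / 10 ^ 7 := by positivity
    generalize (10 : ℝ) ^ 480 = y at hbig ⊢
    linarith)
  have hs2 := smooth_bound (y := z - 1 / 10 ^ 7) (by
    have : (1 : ℝ) / 10 ^ 7 ≤ 1 := by norm_num
    generalize (10 : ℝ) ^ 480 = y at hbig ⊢
    linarith)
  have hs1' := (abs_le.1 hs1).2
  have hs2' := (abs_le.1 hs2).1
  clear hs1 hs2 hz hbig hR
  obtain ⟨E, hEd⟩ : ∃ E : ℝ, E = Real.exp (2 * 10 ^ 9 / 10 ^ 16) := ⟨_, rfl⟩
  obtain ⟨S1, hS1⟩ : ∃ S : ℝ, S = ∫ v, PNT.Hpsi (z + 1 / 10 ^ 7 - v / 10 ^ 16) * PNT.K v := ⟨_, rfl⟩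
  obtain ⟨S2, hS2⟩ : ∃ S : ℝ, S = ∫ v, PNT.Hpsi (z - 1 / 10 ^ 7 - v / 10 ^ 16) * PNT.K v := ⟨_, rfl⟩
  rw [← hS1] at hup hs1'
  rw [← hS2] at hlo hs2'
  rw [← hEd] at hE hE0 hE1 hup hlo
  generalize PNT.Hpsi z = H at *
  generalize PNT.kap = κ at *
  generalize ∫ v in Icc (-(10 : ℝ) ^ 9) (10 ^ 9), PNT.K v = m at *
  norm_num at hM hE hs1' hs2' hlo hup
  rw [abs_le]
  constructor
  · -- lower
    have h1 : κ - 1 / 100000000 ≤ H * E * κ + 6 * (κ - m) := by linarith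
    have h2 : κ - 1 / 5000000 ≤ H * E * κ := by linarith
    have h3 : H * E ≤ H * (1 + 3 / 10000000) := mul_le_mul_of_nonneg_left (by linarith) hH0
    by_contra hcon
    push Not at hcon
    have h4 : H * (1 + 3 / 10000000) ≤ (1 - 5 / 10 ^ 7) * (1 + 3 / 10000000) := by
      refine mul_le_mul_of_nonneg_right (by linarith) (by norm_num)
    have h5 : H * E ≤ 1 - 199 / 1000000000 := by
      refine (h3.trans h4).trans ?_
      norm_num
    nlinarith [mul_le_mul_of_nonneg_right h5 (by linarith : (0:ℝ) ≤ κ)]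
  · -- upper
    by_contra hcon
    push Not at hcon
    have h1 : H * (κ - 1 / 62500000) ≤ H * m := mul_le_mul_of_nonneg_left (by linarith) hH0
    have h2 : E * S1 ≤ E * (κ + 1 / 100000000) := mul_le_mul_of_nonneg_left (by linarith) hE0.le
    have h3 : E * (κ + 1 / 100000000) ≤ (1 + 3 / 10000000) * (κ + 1 / 100000000) :=
      mul_le_mul_of_nonneg_right (by linarith) (by linarith)
    have h4 : H * (κ - 1 / 62500000) ≤ (1 + 3 / 10000000) * (κ + 1 / 100000000) := by linarith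
    have h5 : (1 + 5 / 10 ^ 7) * (κ - 1 / 62500000) < H * (κ - 1 / 62500000) :=
      mul_lt_mul_of_pos_right (by linarith) (by linarith)
    norm_num at h5
    nlinarith

/-- The prime number theorem with an explicit threshold. -/
theorem theta_explicit {x : ℝ} (hx : Real.exp (10 ^ 490) ≤ x) :
    |Chebyshev.theta x - x| ≤ x / 10 ^ 6 := by
  obtain ⟨u, hu⟩ : ∃ u : ℝ, u = Real.log x := ⟨_, rfl⟩
  have hx0 : 0 < x := lt_of_lt_of_le (Real.exp_pos _) hx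
  have hxu : Real.exp u = x := by rw [hu, Real.exp_log hx0]
  have hu490 : (10 : ℝ) ^ 490 ≤ u := by
    rw [hu, Real.le_log_iff_exp_le hx0]
    exact hx
  have h1 := Hpsi_close hu490
  have hu9 : (10 : ℝ) ^ 10 ≤ u := le_trans (pow_le_pow_right₀ (by norm_num) (by norm_num)) hu490
  clear hu490 hx
  have hu0 : 0 ≤ u := le_trans (by positivity) hu9
  have h2 := PNT.Hpsi_mul_exp u
  rw [hxu] at h2
  -- psi
  have h3 : |Chebyshev.psi x - x| ≤ 5 / 10 ^ 7 * x := by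
    rw [← h2, show PNT.Hpsi u * x - x = (PNT.Hpsi u - 1) * x by ring, abs_mul, abs_of_pos hx0]
    exact mul_le_mul_of_nonneg_right h1 hx0.le
  have hx1 : 1 ≤ x := by
    rw [← hxu]
    exact Real.one_le_exp hu0
  have h4 := Chebyshev.psi_sub_theta_le hx1
  have h5 := Chebyshev.theta_le_psi x
  -- 2 √x log x ≤ 10^-7 x
  have h6 : 2 * Real.sqrt x * Real.log x ≤ x / 10 ^ 7 := by
    rw [← hu]
    have e1 : Real.sqrt x = Real.exp (u / 2) := by
      rw [← hxu, Real.sqrt_eq_rpow, ← Real.exp_mul]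
      ring_nf
    have e2 : x = Real.exp (u / 2) * Real.exp (u / 2) := by
      rw [← Real.exp_add, add_halves, hxu]
    have e3 : 2 * u * 10 ^ 7 ≤ Real.exp (u / 2) := by
      have f1 : Real.exp (u / 2) = Real.exp (u / 4) * Real.exp (u / 4) := by
        rw [← Real.exp_add]
        ring_nf
      have f2 := Real.add_one_le_exp (u / 4)
      have f3 : 16 * 10 ^ 7 * 2 ≤ u := by
        refine le_trans ?_ hu9
        norm_num
      rw [f1]
      have f4 : (u / 4) * (u / 4) ≤ Real.exp (u / 4) * Real.exp (u / 4) := by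
        refine mul_le_mul ?_ ?_ ?_ (Real.exp_pos _).le <;> linarith
      refine le_trans ?_ f4
      clear h1 h2 h3 h4 h5
      nlinarith
    rw [e1]
    have e4 := Real.exp_pos (u / 2)
    rw [le_div_iff₀ (by positivity)]
    calc 2 * Real.exp (u / 2) * u * 10 ^ 7 = Real.exp (u / 2) * (2 * u * 10 ^ 7) := by ring
      _ ≤ Real.exp (u / 2) * Real.exp (u / 2) := mul_le_mul_of_nonneg_left e3 e4.le
      _ = x := e2.symm
  have h7 := abs_le.1 h3
  rw [abs_le]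
  constructor
  · have : x / 10 ^ 6 = 5 / 10 ^ 7 * x + 5 * (x / 10 ^ 7) := by ring
    have : 0 ≤ x / 10 ^ 7 := by positivity
    linarith
  · have : x / 10 ^ 6 = 5 / 10 ^ 7 * x + 5 * (x / 10 ^ 7) := by ring
    have : 0 ≤ x / 10 ^ 7 := by positivity
    linarith

end PNTX
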