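import Mathlib

/-!
# PNTX.RL (size 130): the Riemann-Lebesgue lemma with a bound

Let `g : ℝ → ℂ` have the continuous derivative `g'`, `|g| ≤ A`, `|g'| ≤ B` on `[-1, 1]`, `w > 0`.
Then `|∫_{-1}^1 (1 - |s|) e^{i s w} g(s) ds| ≤ (2 A + B)/w`... (we claim `(2 A + 2 B)/w`).

PROOF. On `[0, 1]`: `f(s) = (1 - s) g(s)`, `∫_0^1 f e^{isw} = [f e^{isw}/(iw)]_0^1 -
∫_0^1 f' e^{isw}/(iw)` (`intervalIntegral.integral_mul_deriv_eq_deriv_mul`), `f(1) = 0`,
`f(0) = g(0)`; on `[-1, 0]`: `f(s) = (1 + s) g(s)`, `f(-1) = 0`, `f(0) = g(0)`. The boundary terms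
cancel: the sum of the integrals is `-(1/(iw)) (∫_{-1}^0 f' e + ∫_0^1 f' e)`, `|f'| ≤ A + B`.
So the bound `(1/w) * 2 (A + B)`.
-/

namespace PNTX

open Complex MeasureTheory Set

private lemma rl_half {u u' : ℝ → ℂ} (hu : ∀ s : ℝ, HasDerivAt u (u' s) s) (hc : Continuous u')
    {w : ℝ} (hw : 0 < w) (a b : ℝ) :
    ∫ s in a..b, u s * Complex.exp (Complex.I * s * w) =
      (u b * Complex.exp (Complex.I * b * w) - u a * Complex.exp (Complex.I * a * w)) /
        (Complex.I * w) -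
      (∫ s in a..b, u' s * Complex.exp (Complex.I * s * w)) / (Complex.I * w) := by
  have hw' : (Complex.I * (w : ℂ)) ≠ 0 :=
    mul_ne_zero Complex.I_ne_zero (by exact_mod_cast hw.ne')
  have hv : ∀ s : ℝ, HasDerivAt (fun s : ℝ => Complex.exp (Complex.I * s * w) / (Complex.I * w))
      (Complex.exp (Complex.I * s * w)) s := by
    intro s
    have h1 : HasDerivAt (fun s : ℝ => Complex.I * (s : ℂ) * w) (Complex.I * w) s := by
      have := ((hasDerivAt_id s).ofReal_comp.const_mul Complex.I).mul_const (w : ℂ)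
      simpa using this
    have h2 := (h1.cexp).div_const (Complex.I * w)
    exact h2.congr_deriv (by rw [mul_div_assoc, div_self hw', mul_one])
  have hce : Continuous fun s : ℝ => Complex.exp (Complex.I * (s : ℂ) * w) := by fun_prop
  have := intervalIntegral.integral_mul_deriv_eq_deriv_mul (a := a) (b := b)
    (u := u) (v := fun s : ℝ => Complex.exp (Complex.I * s * w) / (Complex.I * w))
    (u' := u') (v' := fun s : ℝ => Complex.exp (Complex.I * s * w))
    (fun s _ => hu s) (fun s _ => hv s) (hc.intervalIntegrable _ _) (hce.intervalIntegrable _ _)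
  rw [this]
  have h3 : ∫ s in a..b, u' s * (Complex.exp (Complex.I * s * w) / (Complex.I * w)) =
      (∫ s in a..b, u' s * Complex.exp (Complex.I * s * w)) / (Complex.I * w) := by
    rw [← intervalIntegral.integral_div]
    congr 1
    ext s
    ring
  rw [h3]
  ring

theorem rl_bound {g g' : ℝ → ℂ} (hg : ∀ s : ℝ, HasDerivAt g (g' s) s) (hc : Continuous g')
    {A B : ℝ} (hA : ∀ s ∈ Icc (-1 : ℝ) 1, ‖g s‖ ≤ A) (hB : ∀ s ∈ Icc (-1 : ℝ) 1, ‖g' s‖ ≤ B)
    {w : ℝ} (hw : 0 < w) :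
    ‖∫ s in (-1 : ℝ)..1, ((1 - |s| : ℝ) : ℂ) * Complex.exp (Complex.I * s * w) * g s‖ ≤
      (2 * A + 2 * B) / w := by
  have hgc : Continuous g := continuous_iff_continuousAt.2 fun s => (hg s).continuousAt
  have hce : Continuous fun s : ℝ => Complex.exp (Complex.I * (s : ℂ) * w) := by fun_prop
  have hnorm : ∀ s : ℝ, ‖Complex.exp (Complex.I * (s : ℂ) * w)‖ = 1 := by
    intro s
    have : Complex.I * (s : ℂ) * w = ((s * w : ℝ) : ℂ) * Complex.I := by push_cast; ring
    rw [this, Complex.norm_exp_ofReal_mul_I]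
  have hF : Continuous fun s : ℝ => ((1 - |s| : ℝ) : ℂ) * Complex.exp (Complex.I * s * w) * g s := by
    fun_prop
  have hA0 : 0 ≤ A := le_trans (norm_nonneg _) (hA 0 (by norm_num))
  have hB0 : 0 ≤ B := le_trans (norm_nonneg _) (hB 0 (by norm_num))
  have hwc : ‖(Complex.I * (w : ℂ))‖ = w := by
    rw [norm_mul, Complex.norm_I, one_mul, Complex.norm_real, Real.norm_of_nonneg hw.le]
  -- the two halves
  have d1 : ∀ s : ℝ, HasDerivAt (fun s : ℝ => ((1 - s : ℝ) : ℂ) * g s)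
      (-g s + ((1 - s : ℝ) : ℂ) * g' s) s := by
    intro s
    have h1 : HasDerivAt (fun s : ℝ => ((1 - s : ℝ) : ℂ)) (((-1 : ℝ)) : ℂ) s :=
      ((hasDerivAt_id s).const_sub 1).ofReal_comp
    have h2 := h1.mul (hg s)
    exact h2.congr_deriv (by push_cast; ring)
  have d2 : ∀ s : ℝ, HasDerivAt (fun s : ℝ => ((1 + s : ℝ) : ℂ) * g s)
      (g s + ((1 + s : ℝ) : ℂ) * g' s) s := by
    intro s
    have h1 : HasDerivAt (fun s : ℝ => ((1 + s : ℝ) : ℂ)) (((1 : ℝ)) : ℂ) s :=
      ((hasDerivAt_id s).const_add 1).ofReal_comp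
    have h2 := h1.mul (hg s)
    exact h2.congr_deriv (by push_cast; ring)
  have c1 : Continuous fun s : ℝ => -g s + ((1 - s : ℝ) : ℂ) * g' s := by fun_prop
  have c2 : Continuous fun s : ℝ => g s + ((1 + s : ℝ) : ℂ) * g' s := by fun_prop
  have r1 := rl_half d1 c1 hw 0 1
  have r2 := rl_half d2 c2 hw (-1) 0
  have e1 : ∫ s in (0 : ℝ)..1, ((1 - |s| : ℝ) : ℂ) * Complex.exp (Complex.I * s * w) * g s =
      ∫ s in (0 : ℝ)..1, ((1 - s : ℝ) : ℂ) * g s * Complex.exp (Complex.I * s * w) := by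
    apply intervalIntegral.integral_congr
    intro s hs
    rw [uIcc_of_le (by norm_num)] at hs
    simp only [abs_of_nonneg hs.1]
    ring
  have e2 : ∫ s in (-1 : ℝ)..0, ((1 - |s| : ℝ) : ℂ) * Complex.exp (Complex.I * s * w) * g s =
      ∫ s in (-1 : ℝ)..0, ((1 + s : ℝ) : ℂ) * g s * Complex.exp (Complex.I * s * w) := by
    apply intervalIntegral.integral_congr
    intro s hs
    rw [uIcc_of_le (by norm_num)] at hs
    simp only [abs_of_nonpos hs.2]
    push_cast
    ring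
  rw [← intervalIntegral.integral_add_adjacent_intervals (b := 0)
    (hF.intervalIntegrable _ _) (hF.intervalIntegrable _ _), e1, e2, r1, r2]
  have b1 : ‖∫ s in (0 : ℝ)..1, (-g s + ((1 - s : ℝ) : ℂ) * g' s) *
      Complex.exp (Complex.I * s * w)‖ ≤ A + B := by
    have := intervalIntegral.norm_integral_le_of_norm_le_const (a := 0) (b := 1) (C := A + B)
      (f := fun s : ℝ => (-g s + ((1 - s : ℝ) : ℂ) * g' s) * Complex.exp (Complex.I * s * w)) ?_
    · simpa using this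
    · intro s hs
      rw [uIoc_of_le (by norm_num)] at hs
      have hs' : s ∈ Icc (-1 : ℝ) 1 := ⟨by linarith [hs.1], hs.2⟩
      rw [norm_mul, hnorm, mul_one]
      refine (norm_add_le _ _).trans ?_
      rw [norm_neg, norm_mul, Complex.norm_real, Real.norm_of_nonneg (by linarith [hs.2])]
      have := mul_le_mul (show (1 - s) ≤ 1 by linarith [hs.1]) (hB s hs') (norm_nonneg _) zero_le_one
      linarith [hA s hs']
  have b2 : ‖∫ s in (-1 : ℝ)..0, (g s + ((1 + s : ℝ) : ℂ) * g' s) *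
      Complex.exp (Complex.I * s * w)‖ ≤ A + B := by
    have := intervalIntegral.norm_integral_le_of_norm_le_const (a := -1) (b := 0) (C := A + B)
      (f := fun s : ℝ => (g s + ((1 + s : ℝ) : ℂ) * g' s) * Complex.exp (Complex.I * s * w)) ?_
    · simpa using this
    · intro s hs
      rw [uIoc_of_le (by norm_num)] at hs
      have hs' : s ∈ Icc (-1 : ℝ) 1 := ⟨hs.1.le, by linarith [hs.2]⟩
      rw [norm_mul, hnorm, mul_one]
      refine (norm_add_le _ _).trans ?_
      rw [norm_mul, Complex.norm_real, Real.norm_of_nonneg (by linarith [hs.1])]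
      have := mul_le_mul (show (1 + s) ≤ 1 by linarith [hs.2]) (hB s hs') (norm_nonneg _) zero_le_one
      linarith [hA s hs']
  set I1 := ∫ s in (0 : ℝ)..1, (-g s + ((1 - s : ℝ) : ℂ) * g' s) *
      Complex.exp (Complex.I * s * w) with hI1
  set I2 := ∫ s in (-1 : ℝ)..0, (g s + ((1 + s : ℝ) : ℂ) * g' s) *
      Complex.exp (Complex.I * s * w) with hI2
  have key : (((1 + (0 : ℝ) : ℝ) : ℂ) * g 0 * Complex.exp (Complex.I * ((0 : ℝ) : ℂ) * w) -
        ((1 + (-1 : ℝ) : ℝ) : ℂ) * g (-1) * Complex.exp (Complex.I * ((-1 : ℝ) : ℂ) * w)) /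
          (Complex.I * w) - I2 / (Complex.I * w) +
      ((((1 - (1 : ℝ) : ℝ) : ℂ) * g 1 * Complex.exp (Complex.I * ((1 : ℝ) : ℂ) * w) -
        ((1 - (0 : ℝ) : ℝ) : ℂ) * g 0 * Complex.exp (Complex.I * ((0 : ℝ) : ℂ) * w)) /
          (Complex.I * w) - I1 / (Complex.I * w)) = -(I1 + I2) / (Complex.I * w) := by
    have z1 : ((1 + (-1 : ℝ) : ℝ) : ℂ) = 0 := by norm_num
    have z2 : ((1 - (1 : ℝ) : ℝ) : ℂ) = 0 := by norm_num
    rw [z1, z2]
    push_cast
    ring
  rw [key, norm_div, norm_neg, hwc]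
  gcongr
  have := norm_add_le I1 I2
  linarith

end PNTX
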