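import Pool.Agent.Lib.PNTX.Bdry
import Pool.Agent.Lib.PNTX.RL
import Pool.Agent.Lib.PNTX.Ker

/-!
# PNTX.Smth (size 170): the smoothed averages, explicit, `l = 10^16`

`|∫ H(y - v/l) K(v) dv - kap| ≤ 10^(-8)` for `l = 10^16`, `y ≥ 10^480`, `H = PNT.Hpsi`.

PROOF. As in the proof of `PNT.smooth_tendsto` (copy the steps `hcv`, `e1` of `hmass` and the last
lines): `∫ H(y - v/l) K = l ∫_{Ioi 0} H(u) K(l(y-u)) du
 = l ∫_{Ioi 0} (H(u) - 1) K(l(y-u)) du + ∫_{Iic (l y)} K`.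
First term: `PNT.ident_zero` with `G = G0` (`G0_continuousOn`, `G0_transform`,
`PNT.Hpsi_measurable`, `PNT.Hpsi_nonneg`, `PNT.Hpsi_le`): it is
`l * ∫_{-1}^1 (1-|s|) e^{is l y} G0(i l s) ds`, bounded by `rl_bound` with `g(s) = G0(i l s)`,
`g'(s) = l G0d(l s)`, `A = 10^250`, `B = 10^16 * 10^450`, `w = l y`:
`≤ l (2*10^250 + 2*10^466)/(l y) ≤ 4*10^466/y ≤ 10^(-9)`. Second: `K_tail` with `b = l y`:
`8/(l y) ≤ 10^(-9)`.
-/

namespace PNTX

open MeasureTheory Set

private theorem hcv {H : ℝ → ℝ} (hHneg : ∀ u ≤ 0, H u = 0) {l : ℝ} (hl : 0 < l) (y : ℝ) :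
    ∫ v, H (y - v / l) * PNT.K v = l * ∫ u in Ioi (0 : ℝ), H u * PNT.K (l * (y - u)) := by
  have e1 : ∫ u in Ioi (0 : ℝ), H u * PNT.K (l * (y - u)) = ∫ u, H u * PNT.K (l * (y - u)) := by
    apply setIntegral_eq_integral_of_forall_compl_eq_zero
    intro u hu
    simp only [mem_Ioi, not_lt] at hu
    rw [hHneg u hu, zero_mul]
  have e2 : ∫ u, H u * PNT.K (l * (y - u)) = ∫ u, H (y - u) * PNT.K (l * u) := by
    rw [← integral_sub_left_eq_self (fun u => H u * PNT.K (l * (y - u))) volume y]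
    apply integral_congr_ae
    filter_upwards with u
    rw [sub_sub_cancel]
  have e3 : ∫ u, H (y - u) * PNT.K (l * u) = l⁻¹ * ∫ v, H (y - v / l) * PNT.K v := by
    have := Measure.integral_comp_mul_left (fun v => H (y - v / l) * PNT.K v) l
    rw [abs_of_pos (inv_pos.mpr hl), smul_eq_mul] at this
    rw [← this]
    apply integral_congr_ae
    filter_upwards with u
    rw [mul_div_cancel_left₀ _ hl.ne']
  rw [e1, e2, e3, ← mul_assoc, mul_inv_cancel₀ hl.ne', one_mul]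

private theorem mass {l : ℝ} (hl : 0 < l) (y : ℝ) :
    l * ∫ u in Ioi (0 : ℝ), PNT.K (l * (y - u)) = ∫ v in Iic (l * y), PNT.K v := by
  have e2 : ∫ u in Ioi (0 : ℝ), PNT.K (l * (y - u)) =
      ∫ u, (Iic (l * y)).indicator PNT.K (l * (y - u)) := by
    rw [← integral_indicator measurableSet_Ioi]
    apply integral_congr_ae
    have : ∀ᵐ u : ℝ, u ≠ 0 := by
      rw [ae_iff]
      simp
    filter_upwards [this] with u hu
    by_cases h : 0 < u
    · rw [indicator_of_mem (mem_Ioi.mpr h), indicator_of_mem]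
      rw [mem_Iic]
      nlinarith
    · rw [indicator_of_notMem (by simpa using h), indicator_of_notMem]
      rw [mem_Iic, not_le]
      have : u < 0 := lt_of_le_of_ne (not_lt.mp h) hu
      nlinarith
  have e3 : ∫ u, (Iic (l * y)).indicator PNT.K (l * (y - u)) =
      ∫ u, (Iic (l * y)).indicator PNT.K (l * u) := by
    exact integral_sub_left_eq_self (fun u => (Iic (l * y)).indicator PNT.K (l * u)) volume y
  rw [e2, e3, Measure.integral_comp_mul_left (fun v => (Iic (l * y)).indicator PNT.K v) l,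
    abs_of_pos (inv_pos.mpr hl), smul_eq_mul, ← mul_assoc, mul_inv_cancel₀ hl.ne', one_mul,
    integral_indicator measurableSet_Iic]

private theorem diff_bound {y : ℝ} (hy : 10 ^ 480 ≤ y) :
    |∫ u in Ioi (0 : ℝ), (PNT.Hpsi u - 1) * PNT.K (10 ^ 16 * (y - u))| ≤
      (2 * 10 ^ 250 + 2 * (10 ^ 16 * 10 ^ 450)) / (10 ^ 16 * y) := by
  have hl : (0 : ℝ) < 10 ^ 16 := by norm_num
  have hy0 : 0 < y := lt_of_lt_of_le (by norm_num) hy
  obtain ⟨G0d, hc, hd, hb⟩ := G0_deriv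
  have h1 := PNT.ident_zero PNT.Hpsi_measurable PNT.Hpsi_nonneg PNT.Hpsi_le G0_continuousOn
    G0_transform hl y
  have habs : ∀ s ∈ Icc (-1 : ℝ) 1, |10 ^ 16 * s| ≤ (10 : ℝ) ^ 16 := by
    intro s hs
    rw [abs_mul, abs_of_pos hl]
    have h2 : |s| ≤ 1 := abs_le.2 hs
    nlinarith
  have h2 := rl_bound (g := fun s : ℝ => G0 (Complex.I * ((10 ^ 16 * s : ℝ) : ℂ)))
    (g' := fun s : ℝ => (10 ^ 16 : ℝ) • G0d (10 ^ 16 * s)) (fun s => by
      have h3 : HasDerivAt (fun s : ℝ => 10 ^ 16 * s) (10 ^ 16 : ℝ) s := by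
        simpa using (hasDerivAt_id s).const_mul ((10 : ℝ) ^ 16)
      exact (hd (10 ^ 16 * s)).scomp s h3) (by fun_prop)
    (A := 10 ^ 250) (B := 10 ^ 16 * 10 ^ 450) (fun s hs => G0_bound (habs s hs)) (fun s hs => by
      rw [norm_smul, Real.norm_of_nonneg hl.le]
      exact mul_le_mul_of_nonneg_left (hb _ (habs s hs)) hl.le)
    (w := 10 ^ 16 * y) (by positivity)
  rw [h1, integral_complex_ofReal, Complex.norm_real, Real.norm_eq_abs] at h2
  exact h2

theorem smooth_bound {y : ℝ} (hy : 10 ^ 480 ≤ y) :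
    |(∫ v, PNT.Hpsi (y - v / 10 ^ 16) * PNT.K v) - PNT.kap| ≤ 1 / 10 ^ 8 := by
  have hl : (0 : ℝ) < 10 ^ 16 := by norm_num
  have hy0 : 0 < y := lt_of_lt_of_le (by norm_num) hy
  have hKm := PNT.K_continuous.measurable
  have hHm := PNT.Hpsi_measurable
  have hHint : Integrable (fun u => PNT.Hpsi u * PNT.K (10 ^ 16 * (y - u))) := by
    refine Integrable.mono' ((PNT.K_comp_integrable hl y).const_mul (Real.log 4 + 4)) ?_ ?_
    · apply Measurable.aestronglyMeasurable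
      fun_prop
    · filter_upwards with u
      rw [Real.norm_of_nonneg (mul_nonneg (PNT.Hpsi_nonneg u) (PNT.K_nonneg _))]
      exact mul_le_mul_of_nonneg_right (PNT.Hpsi_le u) (PNT.K_nonneg _)
  have h1 : ∫ u in Ioi (0 : ℝ), PNT.Hpsi u * PNT.K (10 ^ 16 * (y - u)) =
      (∫ u in Ioi (0 : ℝ), (PNT.Hpsi u - 1) * PNT.K (10 ^ 16 * (y - u))) +
        ∫ u in Ioi (0 : ℝ), PNT.K (10 ^ 16 * (y - u)) := by
    rw [← integral_add]
    · apply setIntegral_congr_fun measurableSet_Ioi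
      intro u _
      simp only
      ring
    · have : (fun u => (PNT.Hpsi u - 1) * PNT.K (10 ^ 16 * (y - u))) =
          fun u => PNT.Hpsi u * PNT.K (10 ^ 16 * (y - u)) - PNT.K (10 ^ 16 * (y - u)) := by
        funext u
        ring
      rw [this]
      exact (hHint.sub (PNT.K_comp_integrable hl y)).integrableOn
    · exact (PNT.K_comp_integrable hl y).integrableOn
  have h2 := diff_bound hy
  have hly : 0 < 10 ^ 16 * y := by positivity
  have h3 := K_tail hly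
  rw [hcv PNT.Hpsi_neg hl, h1, mul_add, mass hl]
  set D := ∫ u in Ioi (0 : ℝ), (PNT.Hpsi u - 1) * PNT.K (10 ^ 16 * (y - u)) with hD
  have h4 : |10 ^ 16 * D| ≤ 4 / 10 ^ 14 := by
    rw [abs_mul, abs_of_pos hl]
    calc 10 ^ 16 * |D| ≤
        10 ^ 16 * ((2 * 10 ^ 250 + 2 * (10 ^ 16 * 10 ^ 450)) / (10 ^ 16 * y)) :=
          mul_le_mul_of_nonneg_left h2 hl.le
      _ = (2 * 10 ^ 250 + 2 * (10 ^ 16 * 10 ^ 450)) / y := by
          field_simp
      _ ≤ (2 * 10 ^ 250 + 2 * (10 ^ 16 * 10 ^ 450)) / 10 ^ 480 := by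
          gcongr
      _ ≤ 4 / 10 ^ 14 := by
          have e1 : (10 : ℝ) ^ 480 = 10 ^ 466 * 10 ^ 14 := by rw [← pow_add]
          have e2 : (10 : ℝ) ^ 16 * 10 ^ 450 = 10 ^ 466 := by rw [← pow_add]
          have e3 : (10 : ℝ) ^ 250 ≤ 10 ^ 466 := pow_le_pow_right₀ (by norm_num) (by norm_num)
          have e4 : (0 : ℝ) < 10 ^ 466 := pow_pos (by norm_num) _
          rw [e1, e2]
          generalize (10 : ℝ) ^ 466 = z at e3 e4 ⊢
          generalize (10 : ℝ) ^ 250 = w at e3 ⊢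
          rw [div_le_div_iff₀ (by positivity) (by norm_num)]
          nlinarith
  have hy1 : (1 : ℝ) ≤ y := le_trans (one_le_pow₀ (by norm_num)) hy
  clear hy h2
  have h5 : 8 / (10 ^ 16 * y) ≤ 8 / 10 ^ 16 := by
    apply div_le_div_of_nonneg_left (by norm_num) hl
    exact le_mul_of_one_le_right hl.le hy1
  have h6 := abs_le.1 h4
  rw [abs_le]
  have h7 : (8 : ℝ) / 10 ^ 16 + 4 / 10 ^ 14 ≤ 1 / 10 ^ 8 := by norm_num
  have h8 : (0 : ℝ) < 8 / 10 ^ 16 := by norm_num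
  obtain ⟨h61, h62⟩ := h6
  obtain ⟨h31, h32⟩ := h3
  have h9 : (4 : ℝ) / 10 ^ 14 ≤ 1 / 10 ^ 8 := by norm_num
  clear h1 h4 hHint hKm hHm
  generalize (∫ v in Iic (10 ^ 16 * y), PNT.K v) = M at h31 h32 ⊢
  generalize (10 : ℝ) ^ 16 * D = z at h61 h62 ⊢
  constructor
  · linarith
  · linarith

end PNTX
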