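import Mathlib
import Pool.Agent.Lib.MP_0bb3d8_nt.ZetaGrowth

/-!
# PNTX.ZBd (size 130): explicit bounds for `F(s) = (s - 1) ζ(s)` near the line `Re s = 1`

`F = riemannZeta₁` (entire, Mathlib). For `L ≥ 1`, `1 ≤ Re s ≤ 2`, `|Im s| ≤ L`:
`|F(s)|, |F'(s)|, |F''(s)| ≤ 1000 L²`.

PROOF. (1) `F_growth`: `|F(s)| ≤ 1 + 3 |s - 1| |s|` for `Re s ≥ 1/2`: repeat the proof of
`Hoh.zeta1_growth` (`Hoh.zeta1_eq`, `Hoh.aTerm_bound`) with the explicit constant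
`∑ (n+1)^(-3/2) ≤ 3`: partial sums `∑_{n<K} (n+1)^(-3/2) ≤ 3 - 2/√K` by induction
(`2/√K - 2/√(K+1) ≥ (K+1)^(-3/2)`), or compare with the integral.
(2) For `z` with `Re z ≥ 1/2`, `Re z ≤ 5/2`, `|Im z| ≤ L + 1/2`: `|z - 1| ≤ L + 2`,
`|z| ≤ L + 3`, so `|F(z)| ≤ 1 + 3 (L+2)(L+3) ≤ 37 L²`.
(3) Cauchy on the circle of radius `1/2` around `s`:
`Complex.norm_deriv_le_of_forall_mem_sphere_norm_le` gives `|F'(s)| ≤ 2 * 37 L²`;
`Complex.norm_iteratedDeriv_le_of_forall_mem_sphere_norm_le` (`n = 2`):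
`|F''(s)| ≤ 2! * 4 * 37 L² = 296 L²` (or apply the first one to `F'` with radius `1/4` twice:
`4 * 4 * 37 L² = 592 L²`). `iteratedDeriv 2 = deriv (deriv ·)`: `iteratedDeriv_succ`.
-/

namespace PNTX

open Complex

private lemma rpow_eq {x : ℝ} (hx : 0 < x) : x ^ (-(3 / 2 : ℝ)) = (x * √x)⁻¹ := by
  rw [Real.rpow_neg hx.le]
  congr 1
  have h : (3 / 2 : ℝ) = 1 + 1 / 2 := by norm_num
  rw [h, Real.rpow_add hx, Real.rpow_one, Real.sqrt_eq_rpow]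

private lemma step_le {x : ℝ} (hx : 0 < x) :
    (x + 1) ^ (-(3 / 2 : ℝ)) ≤ 2 / √x - 2 / √(x + 1) := by
  rw [rpow_eq (by linarith)]
  have ha : 0 < √x := Real.sqrt_pos.2 hx
  have hb : 0 < √(x + 1) := Real.sqrt_pos.2 (by linarith)
  have hab : √x ≤ √(x + 1) := Real.sqrt_le_sqrt (by linarith)
  have ha2 : √x ^ 2 = x := Real.sq_sqrt hx.le
  have hb2 : √(x + 1) ^ 2 = x + 1 := Real.sq_sqrt (by linarith)
  set a := √x
  set b := √(x + 1)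
  have h1 : x + 1 = b ^ 2 := hb2.symm
  have h2 : 2 / a - 2 / b = 2 / (a * b * (a + b)) := by
    have h3 : b ^ 2 - a ^ 2 = 1 := by linarith
    have h4 : (b - a) * (a + b) = 1 := by linear_combination h3
    rw [div_sub_div _ _ ha.ne' hb.ne', div_eq_div_iff (by positivity) (by positivity)]
    linear_combination 2 * a * b * h4
  rw [h2, h1, inv_eq_one_div, div_le_div_iff₀ (by positivity) (by positivity)]
  have h3 : a * (a + b) ≤ 2 * b ^ 2 := by nlinarith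
  nlinarith [mul_le_mul_of_nonneg_left h3 hb.le]

private lemma sum_le (K : ℕ) (hK : 1 ≤ K) :
    ∑ n ∈ Finset.range K, ((n : ℝ) + 1) ^ (-(3 / 2 : ℝ)) ≤ 3 - 2 / √(K : ℝ) := by
  induction K, hK using Nat.le_induction with
  | base => norm_num
  | succ K hK ih =>
    rw [Finset.sum_range_succ]
    have h1 := step_le (x := (K : ℝ)) (by exact_mod_cast hK)
    push_cast
    linarith

private lemma tsum_le : ∑' n : ℕ, ((n : ℝ) + 1) ^ (-(3 / 2 : ℝ)) ≤ 3 := by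
  refine (Hoh.summable_shift (3 / 2) (by norm_num)).tsum_le_of_sum_range_le ?_
  intro K
  rcases Nat.eq_zero_or_pos K with h | h
  · subst h
    norm_num
  · have h1 := sum_le K h
    have h2 : 0 ≤ 2 / √(K : ℝ) := by positivity
    linarith

theorem F_growth (s : ℂ) (hs : 1 / 2 ≤ s.re) :
    ‖riemannZeta₁ s‖ ≤ 1 + 3 * (‖s - 1‖ * ‖s‖) := by
  have hsum := Hoh.summable_shift (3 / 2) (by norm_num)
  rw [Hoh.zeta1_eq s (by linarith)]
  have hsumS : Summable (fun n : ℕ => ‖s - 1‖ * ‖s‖ * ((n : ℝ) + 1) ^ (-(3 / 2 : ℝ))) :=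
    hsum.mul_left _
  have hterm : ∀ n : ℕ, ‖Hoh.aTerm n s‖ ≤ ‖s - 1‖ * ‖s‖ * ((n : ℝ) + 1) ^ (-(3 / 2 : ℝ)) := by
    intro n
    refine (Hoh.aTerm_bound n s (by linarith)).trans ?_
    gcongr
    · have : (0:ℝ) ≤ n := Nat.cast_nonneg n
      linarith
    · linarith
  have h1 : ‖∑' n : ℕ, Hoh.aTerm n s‖ ≤
      ∑' n : ℕ, ‖s - 1‖ * ‖s‖ * ((n : ℝ) + 1) ^ (-(3 / 2 : ℝ)) :=
    tsum_of_norm_bounded hsumS.hasSum hterm
  rw [tsum_mul_left] at h1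
  calc ‖1 + ∑' n : ℕ, Hoh.aTerm n s‖ ≤ ‖(1 : ℂ)‖ + ‖∑' n : ℕ, Hoh.aTerm n s‖ := norm_add_le _ _
    _ ≤ 1 + ‖s - 1‖ * ‖s‖ * ∑' n : ℕ, ((n : ℝ) + 1) ^ (-(3 / 2 : ℝ)) := by
        rw [norm_one]; gcongr
    _ ≤ 1 + ‖s - 1‖ * ‖s‖ * 3 := by
        gcongr
        exact tsum_le
    _ = _ := by ring

private lemma F_ball {L : ℝ} (hL : 1 ≤ L) {s : ℂ} (h1 : 1 ≤ s.re) (h2 : s.re ≤ 2)
    (h3 : |s.im| ≤ L) {z : ℂ} (hz : ‖z - s‖ ≤ 1 / 2) : ‖riemannZeta₁ z‖ ≤ 37 * L ^ 2 := by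
  have hre := (abs_re_le_norm (z - s)).trans hz
  have him := (abs_im_le_norm (z - s)).trans hz
  rw [sub_re, abs_le] at hre
  rw [sub_im, abs_le] at him
  rw [abs_le] at h3
  have hz1 : ‖z - 1‖ ≤ L + 2 := by
    refine (norm_le_abs_re_add_abs_im _).trans ?_
    have e1 : |(z - 1).re| ≤ 3 / 2 := by
      rw [sub_re, one_re, abs_le]
      constructor <;> linarith [hre.1, hre.2]
    have e2 : |(z - 1).im| ≤ L + 1 / 2 := by
      rw [sub_im, one_im, sub_zero, abs_le]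
      constructor <;> linarith [him.1, him.2, h3.1, h3.2]
    linarith
  have hz2 : ‖z‖ ≤ L + 3 := by
    refine (norm_le_abs_re_add_abs_im _).trans ?_
    have e1 : |z.re| ≤ 5 / 2 := by
      rw [abs_le]
      constructor <;> linarith [hre.1, hre.2]
    have e2 : |z.im| ≤ L + 1 / 2 := by
      rw [abs_le]
      constructor <;> linarith [him.1, him.2, h3.1, h3.2]
    linarith
  refine (F_growth z (by linarith [hre.1])).trans ?_
  have h4 : ‖z - 1‖ * ‖z‖ ≤ (L + 2) * (L + 3) :=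
    mul_le_mul hz1 hz2 (norm_nonneg _) (by linarith)
  nlinarith

theorem F_bounds {L : ℝ} (hL : 1 ≤ L) {s : ℂ} (h1 : 1 ≤ s.re) (h2 : s.re ≤ 2)
    (h3 : |s.im| ≤ L) :
    ‖riemannZeta₁ s‖ ≤ 1000 * L ^ 2 ∧ ‖deriv riemannZeta₁ s‖ ≤ 1000 * L ^ 2 ∧
      ‖deriv (deriv riemannZeta₁) s‖ ≤ 1000 * L ^ 2 := by
  have hL2 : 0 ≤ L ^ 2 := sq_nonneg L
  have hd : DiffContOnCl ℂ riemannZeta₁ (Metric.ball s (1 / 2)) :=
    differentiable_riemannZeta₁.diffContOnCl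
  have hC : ∀ z ∈ Metric.sphere s (1 / 2), ‖riemannZeta₁ z‖ ≤ 37 * L ^ 2 := by
    intro z hz
    rw [mem_sphere_iff_norm] at hz
    exact F_ball hL h1 h2 h3 hz.le
  refine ⟨?_, ?_, ?_⟩
  · have := F_ball hL h1 h2 h3 (z := s) (by simp)
    linarith
  · have := norm_deriv_le_of_forall_mem_sphere_norm_le (by norm_num) hd hC
    linarith
  · have h4 := norm_iteratedDeriv_le_of_forall_mem_sphere_norm_le 2 (by norm_num) hd hC
    rw [iteratedDeriv_succ, iteratedDeriv_one] at h4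
    have h5 : ((Nat.factorial 2 : ℕ) : ℝ) * (37 * L ^ 2) / (1 / 2) ^ 2 = 296 * L ^ 2 := by
      rw [Nat.factorial_two]
      push_cast
      ring
    rw [h5] at h4
    linarith

end PNTX
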