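import Pool.Agent.Lib.PNTX.ZBd

/-!
# PNTX.ZLow (size 160): lower bound for `F(1 + it)`, `|t| ≤ 10^16`

`F = riemannZeta₁`, `F(s) = (s-1) ζ(s)`, `F(1) = 1`. Claim: `|F(1 + it)| ≥ 10^(-173)`.

PROOF. (1) `|t| ≤ 1/2000`: `|F(1+it) - F(1)| ≤ |t| * 1000` (mean value inequality on the segment,
`F_bounds` with `L = 1`; `Convex.norm_image_sub_le_of_norm_deriv_le`), so `|F(1+it)| ≥ 1/2`.
(2) `1/2000 ≤ |t| ≤ 10^16`. For `x > 0` the 3-4-1 inequality
`DirichletCharacter.norm_LSeries_product_ge_one` / `norm_LFunction_product_ge_one` with `N = 1`,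
`χ = 1` (`DirichletCharacter.LFunction_modOne_eq : LFunction χ = riemannZeta` for
`χ : DirichletCharacter ℂ 1`): `|ζ(1+x)³ ζ(1+x+it)⁴ ζ(1+x+2it)| ≥ 1`. With `ζ(s) = F(s)/(s-1)`
(`riemannZeta_eq_inv_sub_mul`): `|F(1+x+it)|⁴ ≥ x³ |x+it|⁴ |x+2it| / (|F(1+x)|³ |F(1+x+2it)|)`.
Take `x = 10^(-208)`: `|x + it| ≥ |t| ≥ 1/2000`, `|x + 2it| ≥ 2|t|`, `|F(1+x)| ≤ 1000`,
`|F(1+x+2it)| ≤ 1000 (2*10^16)² = 4*10^35`: so
`|F(1+x+it)|⁴ ≥ x³ 2 (1/2000)^5 / (10^9 * 4*10^35) ≥ x³ 10^(-64)`,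
`|F(1+x+it)| ≥ 10^(-156) 10^(-16) = 10^(-172)`.
Mean value: `|F(1+x+it) - F(1+it)| ≤ x * 1000 * 10^32 = 10^(-173)`. So
`|F(1+it)| ≥ 10^(-172) - 10^(-173) ≥ 10^(-173)`.
(Write `10^(-208)` as `1/10^208`; `pow_le_pow_left` / `lt_of_pow_lt_pow_left` for the fourth root.)
-/

namespace PNTX

open Complex

/-- mean value inequality for `F` in the box `1 ≤ Re ≤ 2`, `|Im| ≤ L`. -/
theorem F_lip {L : ℝ} (hL : 1 ≤ L) {z w : ℂ} (hz1 : 1 ≤ z.re) (hz2 : z.re ≤ 2)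
    (hz3 : |z.im| ≤ L) (hw1 : 1 ≤ w.re) (hw2 : w.re ≤ 2) (hw3 : |w.im| ≤ L) :
    ‖riemannZeta₁ w - riemannZeta₁ z‖ ≤ 1000 * L ^ 2 * ‖w - z‖ := by
  have hconv : Convex ℝ (Set.Icc (1 : ℝ) 2 ×ℂ Set.Icc (-L) L) :=
    ((convex_Icc (1 : ℝ) 2).linear_preimage Complex.reLm).inter
      ((convex_Icc (-L) L).linear_preimage Complex.imLm)
  refine Convex.norm_image_sub_le_of_norm_deriv_le
    (fun y _ => differentiable_riemannZeta₁ y) ?_ hconv ?_ ?_
  · intro y hy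
    rw [Complex.mem_reProdIm] at hy
    exact (F_bounds hL hy.1.1 hy.1.2 (abs_le.2 hy.2)).2.1
  · rw [Complex.mem_reProdIm]
    exact ⟨⟨hz1, hz2⟩, abs_le.1 hz3⟩
  · rw [Complex.mem_reProdIm]
    exact ⟨⟨hw1, hw2⟩, abs_le.1 hw3⟩

theorem norm_zeta_eq {s : ℂ} (hs : s ≠ 1) :
    ‖riemannZeta s‖ = ‖riemannZeta₁ s‖ / ‖s - 1‖ := by
  rw [riemannZeta_eq_inv_sub_mul hs, norm_mul, norm_inv, div_eq_inv_mul]

theorem F_341 {x : ℝ} (hx : 0 < x) {t : ℝ} :
    1 ≤ (‖riemannZeta₁ (1 + x)‖ / ‖(1 + x : ℂ) - 1‖) ^ 3 *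
      (‖riemannZeta₁ (1 + x + I * t)‖ / ‖(1 + x + I * t : ℂ) - 1‖) ^ 4 *
      (‖riemannZeta₁ (1 + x + 2 * I * t)‖ / ‖(1 + x + 2 * I * t : ℂ) - 1‖) := by
  have h := DirichletCharacter.norm_LFunction_product_ge_one (N := 1)
    (1 : DirichletCharacter ℂ 1) hx t
  simp only [DirichletCharacter.LFunctionTrivChar, DirichletCharacter.LFunction_modOne_eq] at h
  have e1 : (1 + x : ℂ) ≠ 1 := by
    intro h
    have := congrArg Complex.re h
    simp at this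
    exact hx.ne' this
  have e2 : (1 + x + I * t : ℂ) ≠ 1 := by
    intro h
    have := congrArg Complex.re h
    simp at this
    exact hx.ne' this
  have e3 : (1 + x + 2 * I * t : ℂ) ≠ 1 := by
    intro h
    have := congrArg Complex.re h
    simp at this
    exact hx.ne' this
  rw [norm_mul, norm_mul, norm_pow, norm_pow, norm_zeta_eq e1, norm_zeta_eq e2,
    norm_zeta_eq e3] at h
  exact h

theorem F_lower {t : ℝ} (ht : |t| ≤ 10 ^ 16) :
    (1 / 10 ^ 173 : ℝ) ≤ ‖riemannZeta₁ (1 + I * t)‖ := by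
  rcases le_or_gt |t| (1 / 2000) with h0 | h0
  · have hl : ‖riemannZeta₁ 1 - riemannZeta₁ (1 + I * t)‖ ≤
        1000 * 1 ^ 2 * ‖(1 : ℂ) - (1 + I * t)‖ := by
      refine F_lip (L := 1) le_rfl ?_ ?_ ?_ ?_ ?_ ?_
      · simp
      · simp
      · simp; linarith
      · simp
      · simp
      · simp
    have e1 : ‖(1 : ℂ) - (1 + I * t)‖ = |t| := by
      rw [show (1 : ℂ) - (1 + I * t) = -(I * t) by ring, norm_neg, norm_mul, norm_I, one_mul,
        norm_real, Real.norm_eq_abs]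
    rw [e1, riemannZeta₁_one] at hl
    have h2 : (1 : ℝ) ≤ ‖1 - riemannZeta₁ (1 + I * t)‖ + ‖riemannZeta₁ (1 + I * t)‖ := by
      have := norm_add_le (1 - riemannZeta₁ (1 + I * t)) (riemannZeta₁ (1 + I * t))
      rw [sub_add_cancel, norm_one] at this
      exact this
    have h3 : (1 / 10 ^ 173 : ℝ) ≤ 1 / 2 := by norm_num
    linarith
  · set x : ℝ := 1 / 10 ^ 208 with hxd
    have hx : 0 < x := by rw [hxd]; positivity
    have hx1 : x ≤ 1 := by rw [hxd]; norm_num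
    have h341 := F_341 hx (t := t)
    have n1 : ‖(1 + x : ℂ) - 1‖ = x := by
      rw [show (1 + x : ℂ) - 1 = x by ring, norm_real, Real.norm_eq_abs, abs_of_pos hx]
    have n2 : |t| ≤ ‖(1 + x + I * t : ℂ) - 1‖ := by
      have := Complex.abs_im_le_norm ((1 + x + I * t : ℂ) - 1)
      simpa using this
    have n3 : 2 * |t| ≤ ‖(1 + x + 2 * I * t : ℂ) - 1‖ := by
      have := Complex.abs_im_le_norm ((1 + x + 2 * I * t : ℂ) - 1)
      simpa [abs_mul] using this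
    have b1 : ‖riemannZeta₁ (1 + x)‖ ≤ 1000 * 1 ^ 2 := by
      refine (F_bounds (L := 1) le_rfl ?_ ?_ ?_).1
      · simp; exact hx.le
      · simp; linarith
      · simp
    have b3 : ‖riemannZeta₁ (1 + x + 2 * I * t)‖ ≤ 1000 * (2 * 10 ^ 16) ^ 2 := by
      refine (F_bounds (L := 2 * 10 ^ 16) (by norm_num) ?_ ?_ ?_).1
      · simp; exact hx.le
      · simp; linarith
      · simp [abs_mul]
        linarith
    have hl : ‖riemannZeta₁ (1 + x + I * t) - riemannZeta₁ (1 + I * t)‖ ≤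
        1000 * (10 ^ 16) ^ 2 * ‖(1 + x + I * t : ℂ) - (1 + I * t)‖ := by
      refine F_lip (L := 10 ^ 16) (by norm_num) ?_ ?_ ?_ ?_ ?_ ?_
      · simp
      · simp
      · simpa using ht
      · simp; exact hx.le
      · simp; linarith
      · simpa using ht
    have e1 : ‖(1 + x + I * t : ℂ) - (1 + I * t)‖ = x := by
      rw [show (1 + x + I * t : ℂ) - (1 + I * t) = x by ring, norm_real, Real.norm_eq_abs,
        abs_of_pos hx]
    rw [e1] at hl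
    have key : (1 / 10 ^ 172 : ℝ) ≤ ‖riemannZeta₁ (1 + x + I * t)‖ := by
      by_contra hcon
      push Not at hcon
      rw [n1] at h341
      set A := ‖riemannZeta₁ (1 + x + I * t)‖ with hA
      have c1 : (‖riemannZeta₁ (1 + x)‖ / x) ^ 3 ≤ (1000 / x) ^ 3 := by
        gcongr
        linarith
      have n5 : (1 / 2000 : ℝ) ≤ ‖(1 + x + I * t : ℂ) - 1‖ := le_trans h0.le n2
      have c2 : (A / ‖(1 + x + I * t : ℂ) - 1‖) ^ 4 ≤ ((1 / 10 ^ 172) / (1 / 2000)) ^ 4 :=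
        pow_le_pow_left₀ (by positivity)
          (div_le_div₀ (by norm_num) hcon.le (by norm_num) n5) 4
      have n4 : (1 / 1000 : ℝ) ≤ ‖(1 + x + 2 * I * t : ℂ) - 1‖ :=
        le_trans (by linarith) n3
      have c3 : ‖riemannZeta₁ (1 + x + 2 * I * t)‖ / ‖(1 + x + 2 * I * t : ℂ) - 1‖ ≤
          (1000 * (2 * 10 ^ 16) ^ 2) / (1 / 1000) :=
        div_le_div₀ (by norm_num) b3 (by norm_num) n4
      have c4 : (‖riemannZeta₁ (1 + x)‖ / x) ^ 3 *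
          (A / ‖(1 + x + I * t : ℂ) - 1‖) ^ 4 *
          (‖riemannZeta₁ (1 + x + 2 * I * t)‖ / ‖(1 + x + 2 * I * t : ℂ) - 1‖) ≤
          (1000 / x) ^ 3 * ((1 / 10 ^ 172) / (1 / 2000)) ^ 4 *
            ((1000 * (2 * 10 ^ 16) ^ 2) / (1 / 1000)) := by
        gcongr
      have c5 : (1000 / x) ^ 3 * ((1 / 10 ^ 172) / (1 / 2000)) ^ 4 *
            ((1000 * (2 * 10 ^ 16) ^ 2) / (1 / 1000)) < 1 := by
        rw [hxd]
        norm_num
      linarith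
    have h2 : ‖riemannZeta₁ (1 + x + I * t)‖ ≤
        ‖riemannZeta₁ (1 + x + I * t) - riemannZeta₁ (1 + I * t)‖ +
          ‖riemannZeta₁ (1 + I * t)‖ := by
      have := norm_add_le (riemannZeta₁ (1 + x + I * t) - riemannZeta₁ (1 + I * t))
        (riemannZeta₁ (1 + I * t))
      rw [sub_add_cancel] at this
      exact this
    have h3 : 1000 * (10 ^ 16) ^ 2 * x = 1 / 10 ^ 173 := by
      rw [hxd]; norm_num
    have h4 : (1 / 10 ^ 172 : ℝ) = 10 * (1 / 10 ^ 173) := by norm_num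
    have h5 : (0 : ℝ) < 1 / 10 ^ 173 := by positivity
    rw [h3] at hl
    rw [h4] at key
    clear_value x
    generalize (1 / 10 ^ 173 : ℝ) = c at *
    linarith

end PNTX
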